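import Pool.Agent.L0h1.CM.Law
import Pool.Agent.L0h75.IS.Sha7
import Pool.Agent.Y948.CQ.C2

/-!
# The rank form of the conjecture for the elliptic curves over `ℚ` with complex multiplication by a field
# in which two is unramified and with a rational point of order two

The class: the elliptic curves over `ℚ` which have complex multiplication by an order of an imaginary
quadratic field in which `2` is unramified, and which have a rational point of order two. Their integral
equations `y² = x³ + A x + B` are the `(A, B) = (a n², b n³)` with `(a, b)` one of `(-35, -98)`,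
`(-595, -5586)`, `(0, 1)`, `(-15, 22)` and `n` a nonzero integer; the orders are `ℤ[(1 + √-7)/2]`,
`ℤ[√-7]`, `ℤ[(1 + √-3)/2]`, `ℤ[√-3]`. The theorem says:
1. this classification;
2. if the root number is one (`RootPlus`; this is the explicit form of the condition on `n` given by the
   known formulas for the root number) and the order is the maximal one, then `E(ℚ)` is finite and
   `Ш(E/ℚ)` has no element of order two if and only if an explicit square matrix over `𝔽₂`, whose entries
   are quadratic symbols between the normalised prime elements of `ℤ[(1 + √-7)/2]` or `ℤ[(1 + √-3)/2]`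
   which divide `n`, is not singular (`Good`);
3. for all the curves of the class of root number one (all the four orders) with a nonsingular matrix the
   order of the `L`-series at `s = 1` and the rank are both `0`, in the form of the frozen statement;
4. the proportion of the good twists among the quadratic twists of root number one of a curve of the
   class, ordered by `|e|`, is exactly `(1/2) ∏_{i ≥ 0} (1 - 2^{-(2i+1)}) = 0.2097...`, and it is the same
   when the behaviour of the twists at any finite number of places is prescribed;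
5. it is also the same for all the curves of the class of root number one, ordered by the height.

The values `L(E, 1)` are computed modulo the primes over two by sums of elliptic functions over division
points, so that no converse theorem of Iwasawa theory is used. Proof: `Pool/Agent/L0h1/CM` (assembly),
`Pool/Agent/L0h75/IS` (the class, the isogenies of degree two, the height), `Pool/Agent/L0h74/{AP,E3,GF}`
(the densities), `Pool/Agent/L0h4/T6` and `Pool/Agent/L0h75/IS` (the Tate-Shafarevich groups and the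
isogenies of degree three and seven), and the files named in
`Pool/Agent/L0h1/Old/{AllTwistsX49ExactProportion,AllTwistsX36ExactProportion}.lean` (the values, the
2-descents, the reciprocity laws, the linear algebra). Joint work of helpers 1, 4, 23, 61, 74, 75, 80, 86, 98.
-/

set_option autoImplicit false

open scoped Classical

namespace Pool.Agent.Results.MP_696deb_nt.CMTwoTorsionCurves

/-! ### the conjecture -/

/-- the conclusion of the frozen statement for `y² = x³ + a x + b`, together with the fact that the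
order of vanishing and the rank are both `0` -/
def BSDRankZero (a b : ℤ) : Prop :=
  4 * a ^ 3 + 27 * b ^ 2 ≠ 0 ∧
    ∃ F : ℂ → ℂ, Differentiable ℂ F ∧
      (∀ s : ℂ, (3 : ℝ) / 2 < s.re →
        HasProd
          (fun p : ℕ => open Classical in
            if p.Prime ∧ ¬ ((p : ℤ) ∣ 2 * (-4 * a ^ 3 - 27 * b ^ 2)) then
              (1 - ((p : ℂ) - (Nat.card {q : ZMod p × ZMod p //
                  q.2 ^ 2 = q.1 ^ 3 + (a : ZMod p) * q.1 + (b : ZMod p)} : ℂ))
                  * (p : ℂ) ^ (-s) + (p : ℂ) ^ (1 - 2 * s))⁻¹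
            else 1)
          (F s)) ∧
      analyticOrderAt F 1 =
        ((Module.finrank ℤ
          (WeierstrassCurve.Affine.Point
            (WeierstrassCurve.toAffine
              ({ a₁ := 0, a₂ := 0, a₃ := 0, a₄ := (a : ℚ), a₆ := (b : ℚ) } :
                WeierstrassCurve ℚ))) : ℕ) : ℕ∞) ∧
      Module.finrank ℤ
        (WeierstrassCurve.Affine.Point
          (WeierstrassCurve.toAffine
            ({ a₁ := 0, a₂ := 0, a₃ := 0, a₄ := (a : ℚ), a₆ := (b : ℚ) } :
              WeierstrassCurve ℚ))) = 0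

/-- The curve `y² = x³ + A x + B`. -/
def curve (A B : ℤ) : WeierstrassCurve ℚ := { a₁ := 0, a₂ := 0, a₃ := 0, a₄ := (A : ℚ), a₆ := (B : ℚ) }

/-- The curve `y² = x³ + A x + B` has finitely many rational points, and its Tate-Shafarevich group has
no element of order two. -/
def TrivialTwo (A B : ℤ) : Prop :=
  Finite (curve A B).toAffine.Point ∧
    ∀ x : Pool.Agent.TH841.NF.D.Sha (curve A B), x + x = 0 → x = 0

/-! ### the class -/

/-- The `j`-invariants of the elliptic curves over `ℚ` with complex multiplication by an order of an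
imaginary quadratic field in which `2` is unramified: the discriminants of the orders are
`-3, -12, -27, -7, -28, -11, -19, -43, -67, -163`. -/
def cmj : Finset ℤ := {0, 54000, -12288000, -3375, 16581375, -32768, -884736, -884736000,
  -147197952000, -262537412640768000}

/-- The curve `y² = x³ + A x + B` has the `j`-invariant `j`. -/
def HasJ (A B j : ℤ) : Prop := 1728 * (4 * A ^ 3) = j * (4 * A ^ 3 + 27 * B ^ 2)

/-- `y² = x³ + A x + B` is an elliptic curve with complex multiplication by an order of an imaginary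
quadratic field in which `2` is unramified, and it has a rational point of order two. -/
def CMTwo (A B : ℤ) : Prop :=
  4 * A ^ 3 + 27 * B ^ 2 ≠ 0 ∧ (∃ j ∈ cmj, HasJ A B j) ∧ ∃ x : ℚ, x ^ 3 + A * x + B = 0

/-- The coefficients of the four curves. -/
def a : Fin 4 → ℤ := ![-35, -595, 0, -15]

/-- The coefficients of the four curves. -/
def b : Fin 4 → ℤ := ![-98, -5586, 1, 22]

/-- `y² = x³ + A x + B` is the twist by `n` of the curve number `i`. -/
def Par (i : Fin 4) (n A B : ℤ) : Prop := n ≠ 0 ∧ A = a i * n ^ 2 ∧ B = b i * n ^ 3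

/-! ### the root number -/

/-- The squarefree part prime to `q` of `|n|`: the product of the primes different from `q` which divide
`n` to an odd power. -/
def sfree (q : ℕ) (n : ℤ) : ℕ :=
  ∏ p ∈ n.natAbs.primeFactors.filter fun p => p ≠ q ∧ n.natAbs.factorization p % 2 = 1, p

/-- The twist by `n` of the curve number `i` has root number one. For the curves with complex
multiplication by `ℚ(√-7)` (`i = 0, 1`): `n` is positive and its valuation at `7` is even, or `n` is
negative and its valuation at `7` is odd. For the curves with complex multiplication by `ℚ(√-3)`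
(`i = 2, 3`): the squarefree part prime to `3` of `|n|` is `1` modulo `4`, or it is even and either `n` is
negative and its valuation at `3` is even, or `n` is positive and its valuation at `3` is odd. -/
def Plus (i : Fin 4) (n : ℤ) : Prop :=
  if i.val < 2 then (0 < n ∧ Even (padicValInt 7 n)) ∨ (n < 0 ∧ Odd (padicValInt 7 n))
  else n ≠ 0 ∧ (sfree 3 n % 4 = 1 ∨ (sfree 3 n % 2 = 0 ∧
    ((n < 0 ∧ Even (padicValInt 3 n)) ∨ (0 < n ∧ Odd (padicValInt 3 n)))))

/-- The curve `y² = x³ + A x + B` is in the class and has root number one. -/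
def RootPlus (A B : ℤ) : Prop := ∃ (i : Fin 4) (n : ℤ), Par i n A B ∧ Plus i n

/-! ### the matrix for `ℚ(√-7)` -/

namespace Seven

/-- The complex number `(1 + √-7) / 2`. -/
noncomputable def al : ℂ := (1 + Complex.I * (Real.sqrt 7 : ℂ)) / 2

/-- The ring `ℤ[α]`, `α = (1 + √-7) / 2`, of the integers of `K = ℚ(√-7)`, as a subring of `ℂ`: its
elements are the numbers `x + y α`, `x, y ∈ ℤ` (see `mem_O`). -/
noncomputable abbrev O : Subring ℂ := Pool.Agent.Y698.RR

lemma mem_O (z : ℂ) : z ∈ O ↔ ∃ x y : ℤ, z = x + y * al := Pool.Agent.Y698.mem_RR z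

/-- The element `α = (1 + √-7) / 2` of `ℤ[α]`. -/
noncomputable def α : O := ⟨al, (mem_O al).2 ⟨0, 1, by push_cast; ring⟩⟩

/-- The element `√-7 = 2 α - 1` of `ℤ[α]`. -/
noncomputable def rt : O := 2 * α - 1

/-- The generators, for `D` squarefree and prime to `7`: for each prime ideal of `ℤ[α]` other than `(α)`
which divides `D` its generator congruent to `1` modulo `α²` (for `D` even this includes the generator
`α - 1 = 1 + α²` of the conjugate of `(α)`); also `α - 1` if `D ≡ 3 mod 4`, and `-α` or `α` if `D ≡ 2` or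
`6 mod 8`. -/
def primes (D : ℕ) : Set O := {x | D ≠ 0 ∧ Prime x ∧ ((x ∣ (D : O) ∧ α ^ 2 ∣ x - 1) ∨
  (D % 4 = 3 ∧ x = α - 1) ∨ (D % 8 = 2 ∧ x = -α) ∨ (D % 8 = 6 ∧ x = α))}

noncomputable instance (D : ℕ) : Fintype (primes D) := Pool.Agent.L0h1.EV.inst_gens D

/-- `1` if `x` is not a square modulo `y`, and `0` if it is. -/
noncomputable def nonsq (x y : O) : ZMod 2 := if ∃ z : O, y ∣ x - z ^ 2 then 0 else 1

/-- The Hilbert symbol `(x, D)` at the prime element `y`, for `x` prime to `y` and `y` a prime divisor of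
the discriminant of `ℚ(√D)`: `0` if `x` is congruent to `u² - D v²` modulo `y³` for some `u` and `v`,
and `1` if not. -/
noncomputable def symb (D : ℕ) (x y : O) : ZMod 2 :=
  if ∃ u v : O, y ^ 3 ∣ x - u ^ 2 + D * v ^ 2 then 0 else 1

/-- `0` if `x ≡ 1` modulo `α³`, and `1` if not. -/
noncomputable def eight (x : O) : ZMod 2 := if α ^ 3 ∣ x - 1 then 0 else 1

/-- The matrix over the field with two elements, with rows and columns indexed by the generators: the
entry at `(x, y)` is `symb D x y` for `x ≠ y`, and the entry at `(x, x)` is the sum of `nonsq x √-7` and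
of the `symb D x z` for all the `z ≠ x`; if `D ≡ 3 mod 4`, the product `eight x * symb D (-√-7) y` is
added to the entry at `(x, y)` for all `x` and `y`. -/
noncomputable def mat (D : ℕ) : Matrix (primes D) (primes D) (ZMod 2) := Matrix.of fun x y =>
  (if x = y then nonsq x rt + ∑ z ∈ Finset.univ.erase x, symb D x z else symb D x y) +
    (if D % 4 = 3 then eight x * symb D (-rt) y else 0)

lemma mat_eq (D : ℕ) : mat D = Pool.Agent.L0h1.EV.mU D := rfl

end Seven

/-! ### the matrix for `ℚ(√-3)` -/

namespace Three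

/-- The cube root of unity `(-1 + √-3) / 2`. -/
noncomputable def om : ℂ := ⟨-1 / 2, Real.sqrt 3 / 2⟩

/-- The ring `ℤ[ω]` of the integers of `K = ℚ(√-3)`, as a subring of `ℂ`: its elements are the numbers
`x + y ω`, `x, y ∈ ℤ` (see `mem_O`). -/
noncomputable abbrev O : Subring ℂ := Pool.Agent.Y696.eis

lemma mem_O (z : ℂ) : z ∈ O ↔ ∃ x y : ℤ, z = x + y * om := Iff.rfl

/-- The element `ω` of `ℤ[ω]`. -/
noncomputable def ω : O := ⟨om, (mem_O om).2 ⟨0, 1, by push_cast; ring⟩⟩

/-- The element `√-3 = 1 + 2 ω` of `ℤ[ω]`. -/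
noncomputable def rt : O := ((1 : ℤ) : O) + ((2 : ℤ) : O) * ω

/-- The complex conjugation of `ℤ[ω]`. -/
noncomputable def conj (z : O) : O := ⟨(starRingEnd ℂ) z, Pool.Agent.Y696.conj_mem z.2⟩

/-- The generators of the prime ideals of `ℤ[ω]` which divide `D`, except `(2)`, for `D` prime to `3`:
each of these ideals has exactly one generator `π` congruent to `1` modulo `2 √-3`. -/
def primes (D : ℕ) : Set O := {π | D ≠ 0 ∧ Prime π ∧ π ∣ (D : O) ∧ 2 * rt ∣ π - 1}

noncomputable instance (D : ℕ) : Fintype (primes D) := Pool.Agent.L0h86.F3.inst_pset D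

/-- `1` if `x` is not a square modulo `y`, and `0` if it is. -/
noncomputable def nonsq (x y : O) : ZMod 2 := if ∃ z : O, y ∣ x - z ^ 2 then 0 else 1

/-- `1` if `√-3 (D / y)` is not a square modulo `y`, and `0` if it is, for `y` dividing `D`. -/
noncomputable def diag (D : ℕ) (y : O) : ZMod 2 :=
  if ∃ u z : O, (D : O) = y * u ∧ y ∣ rt * u - z ^ 2 then 0 else 1

/-- The matrix of `D` over the field with two elements. Its rows and columns are indexed by the
generators and by one more index `none`. The entry at `(x, x)` is `diag D x`, and the entry at `(x, y)`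
for `x ≠ y` is `nonsq y x`, to which `nonsq (-1) x` is added if `y` is the conjugate of `x`. If `D` is
even, the entries at `(x, none)`, `(none, x)` and `(none, none)` are `nonsq (-2) x`, `nonsq √-3 x` and
`1` or `0` according as `D ≡ 2` modulo `8` or not. If `D` is odd, they are `0`, `0` and `1`. -/
noncomputable def mat (D : ℕ) : Matrix (Option (primes D)) (Option (primes D)) (ZMod 2) :=
  Matrix.of fun i j =>
  match i, j with
  | some x, some y => if x = y then diag D x else
      nonsq y x + if (y : O) = conj x then nonsq (-1) x else 0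
  | some x, none => if D % 2 = 0 then nonsq (-2) x else 0
  | none, some y => if D % 2 = 0 then nonsq rt y else 0
  | none, none => if D % 2 = 0 then (if D % 8 = 2 then 1 else 0) else 1

/-- a matrix with a trivial border -/
lemma det_border {α R : Type*} [Fintype α] [DecidableEq α] [CommRing R]
    (M : Matrix (Option α) (Option α) R) (N : Matrix α α R) (h1 : ∀ i j, M (some i) (some j) = N i j)
    (h2 : ∀ i, M (some i) none = 0) (h3 : ∀ j, M none (some j) = 0) (h4 : M none none = 1) :
    M.det = N.det := by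
  rw [← Matrix.det_submatrix_equiv_self (Equiv.optionEquivSumPUnit.{0} α).symm M]
  have e : M.submatrix (Equiv.optionEquivSumPUnit.{0} α).symm (Equiv.optionEquivSumPUnit.{0} α).symm =
      Matrix.fromBlocks N 0 0 1 := by
    ext i j
    rcases i with i | i <;> rcases j with j | j
    · exact h1 i j
    · exact h2 i
    · exact h3 j
    · show M none none = (1 : Matrix PUnit PUnit R) i j
      rw [h4, Subsingleton.elim i j, Matrix.one_apply_eq]
  rw [e, Matrix.det_fromBlocks_zero₂₁, Matrix.det_one, mul_one]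

lemma mat_odd {D : ℕ} (h : D % 2 = 1) : (mat D).det ≠ 0 ↔ (Pool.Agent.L0h86.F3.mM D).det ≠ 0 := by
  have h' : ¬ D % 2 = 0 := by omega
  have e := det_border (mat D) (Pool.Agent.L0h86.F3.mM D) (fun i j => rfl)
    (fun i => by
      show (if D % 2 = 0 then nonsq (-2) i else 0) = 0
      rw [if_neg h'])
    (fun j => by
      show (if D % 2 = 0 then nonsq rt j else 0) = 0
      rw [if_neg h'])
    (by
      show (if D % 2 = 0 then (if D % 8 = 2 then (1 : ZMod 2) else 0) else 1) = 1
      rw [if_neg h'])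
  have e2 := congrArg (fun y : ZMod 2 => y ≠ 0) e
  exact Iff.of_eq e2

lemma mat_even {D : ℕ} (h : D % 2 = 0) : (mat D).det ≠ 0 ↔ (Pool.Agent.L0h4.T5.mC D).det ≠ 0 := by
  have e : mat D = Pool.Agent.L0h4.T5.mC D := by
    refine Matrix.ext fun i j => ?_
    rcases i with _ | i <;> rcases j with _ | j
    · show (if D % 2 = 0 then (if D % 8 = 2 then (1 : ZMod 2) else 0) else 1) =
        if D % 8 = 2 then 1 else 0
      rw [if_pos h]
    · show (if D % 2 = 0 then nonsq rt j else 0) = _
      rw [if_pos h]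
      rfl
    · show (if D % 2 = 0 then nonsq (-2) i else 0) = _
      rw [if_pos h]
      rfl
    · rfl
  rw [e]
  rfl

lemma mat_cr (D : ℕ) : (mat D).det ≠ 0 ↔ Pool.Agent.L0h74.E3.Cr D := by
  unfold Pool.Agent.L0h74.E3.Cr
  rcases Nat.mod_two_eq_zero_or_one D with h | h
  · rw [mat_even h]
    constructor
    · exact fun h1 => Or.inr ⟨h, h1⟩
    · rintro (⟨h1, _⟩ | ⟨_, h1⟩)
      · omega
      · exact h1
  · rw [mat_odd h]
    constructor
    · exact fun h1 => Or.inl ⟨h, h1⟩
    · rintro (⟨_, h1⟩ | ⟨h1, _⟩)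
      · exact h1
      · omega

end Three

/-! ### the criterion and the counting -/

/-- The matrix of the twist by `n` of the curve number `i` is not singular. -/
def Nonsing (i : Fin 4) (n : ℤ) : Prop :=
  if i.val < 2 then (Seven.mat (sfree 7 n)).det ≠ 0 else (Three.mat (sfree 3 n)).det ≠ 0

/-- The curve `y² = x³ + A x + B` is in the class and its matrix is not singular. -/
def Good (A B : ℤ) : Prop := ∃ (i : Fin 4) (n : ℤ), Par i n A B ∧ Nonsing i n

/-- `e` is squarefree, the quadratic twist `y² = x³ + A e² x + B e³` of `y² = x³ + A x + B` has root number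
one, and `e` differs from `e₀` by a square in `ℚ_p` for all the `p` in `S`, and in `ℝ` if `inf`: the twists
by `e` and by `e₀` are isomorphic over these fields. -/
def Local (A B : ℤ) (S : Finset ℕ) (inf : Prop) (e₀ e : ℤ) : Prop :=
  Squarefree e ∧ RootPlus (A * e ^ 2) (B * e ^ 3) ∧
    (∀ p ∈ S, ∀ _ : Fact p.Prime, IsSquare (((e * e₀ : ℤ) : ℤ) : ℚ_[p])) ∧ (inf → 0 < e * e₀)

/-- The number of the `e` with `|e| ≤ X` and `T e`. -/
noncomputable def count (T : ℤ → Prop) (X : ℕ) : ℕ := ((Finset.Icc (-(X : ℤ)) X).filter T).card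

/-- The equation `y² = x³ + A x + B` is the minimal one among the integral equations of this form of the
curve: each curve has exactly one such equation. -/
def Minimal (A B : ℤ) : Prop := ∀ p : ℕ, p.Prime → ¬ ((p : ℤ) ^ 4 ∣ A ∧ (p : ℤ) ^ 6 ∣ B)

/-- The height of the equation. -/
def height (A B : ℤ) : ℕ := max (4 * A.natAbs ^ 3) (27 * B.natAbs ^ 2)

/-- The number of the curves of the class of height at most `X` with the property `P`. -/
noncomputable def number (P : ℤ → ℤ → Prop) (X : ℕ) : ℕ :=
  {q : ℤ × ℤ | (CMTwo q.1 q.2 ∧ Minimal q.1 q.2) ∧ height q.1 q.2 ≤ X ∧ P q.1 q.2}.ncard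

/-! ### the proof -/

lemma par_unique {i j : Fin 4} {m n A B : ℤ} (h : Par i m A B) (h' : Par j n A B) : i = j ∧ m = n :=
  Pool.Agent.L0h75.IS.fam_inj h.1 (h.2.1.symm.trans h'.2.1) (h.2.2.symm.trans h'.2.2)

lemma plus_eq (i : Fin 4) (n : ℤ) : Plus i n ↔ Pool.Agent.L0h1.CM.Plus i n := Iff.rfl

lemma nonsing_iff (i : Fin 4) (n : ℤ) : Nonsing i n ↔ Pool.Agent.L0h1.CM.Gd i n := by
  unfold Nonsing Pool.Agent.L0h1.CM.Gd
  by_cases h : i.val < 2
  · rw [if_pos h, if_pos h]
    rfl
  · rw [if_neg h, if_neg h]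
    exact Three.mat_cr _

lemma root_iff {i : Fin 4} {n A B : ℤ} (h : Par i n A B) :
    RootPlus A B ↔ Pool.Agent.L0h1.CM.Plus i n := by
  constructor
  · rintro ⟨j, m, h1, h2⟩
    obtain ⟨rfl, rfl⟩ := par_unique h h1
    exact h2
  · exact fun h1 => ⟨i, n, h, h1⟩

lemma good_iff {i : Fin 4} {n A B : ℤ} (h : Par i n A B) :
    Good A B ↔ Pool.Agent.L0h1.CM.Gd i n := by
  constructor
  · rintro ⟨j, m, h1, h2⟩
    obtain ⟨rfl, rfl⟩ := par_unique h h1
    exact (nonsing_iff _ _).1 h2
  · exact fun h1 => ⟨i, n, h, (nonsing_iff _ _).2 h1⟩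

theorem class_iff (A B : ℤ) : CMTwo A B ↔ ∃ (i : Fin 4) (n : ℤ), Par i n A B := by
  constructor
  · rintro ⟨h0, hj, hx⟩
    exact Pool.Agent.L0h75.IS.classify' h0 hj hx
  · rintro ⟨i, n, hn, rfl, rfl⟩
    exact Pool.Agent.L0h75.IS.family (i := i) hn

theorem bsd {A B : ℤ} (h : RootPlus A B) (hg : Good A B) : BSDRankZero A B := by
  obtain ⟨i, n, hp, h1⟩ := h
  have h2 := (good_iff hp).1 hg
  obtain ⟨F, k1, k2, k3, k4⟩ := Pool.Agent.L0h1.CM.bsd h1 h2
  have h0 := ((class_iff A B).2 ⟨i, n, hp⟩).1
  obtain ⟨hn, rfl, rfl⟩ := hp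
  have h6 := Pool.Agent.L0h1.KD.finrank_zero k4
  refine ⟨h0, F, k1, ?_, ?_, h6⟩
  · intro s hs
    have := k2 s hs
    unfold Pool.Agent.L0h75.IS.tgi at this
    exact this
  · have h7 : Module.finrank ℤ
        (WeierstrassCurve.Affine.Point
          (WeierstrassCurve.toAffine
            ({ a₁ := 0, a₂ := 0, a₃ := 0, a₄ := ((a i * n ^ 2 : ℤ) : ℚ),
               a₆ := ((b i * n ^ 3 : ℤ) : ℚ) } : WeierstrassCurve ℚ))) = 0 := h6
    rw [h7, (k1.analyticAt 1).analyticOrderAt_eq_zero.2 k3]
    rfl

lemma tt_eq {V : WeierstrassCurve ℚ} {A B : ℤ} (h : curve A B = V) :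
    TrivialTwo A B ↔ Pool.Agent.L0h1.CM.TT2 V := by
  subst h
  rfl

theorem two (hS : Pool.Agent.L0h1.CM.S_SHA7) {A B : ℤ} (h : RootPlus A B)
    (hj : HasJ A B (-3375) ∨ HasJ A B 0) : TrivialTwo A B ↔ Good A B := by
  obtain ⟨i, n, hp, h1⟩ := h
  rw [good_iff hp]
  have hij : i = 0 ∨ i = 2 := by
    have h2 := Pool.Agent.L0h75.IS.hasJ_fam i n
    have h3 := hp.2.1
    have h4 := hp.2.2
    have h0 := ((class_iff A B).2 ⟨i, n, hp⟩).1
    have h2' : HasJ A B (Pool.Agent.L0h75.IS.jc i) := by
      rw [h3, h4]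
      exact h2
    have key : ∀ j : ℤ, HasJ A B j → j = Pool.Agent.L0h75.IS.jc i := by
      intro j h5
      unfold HasJ at h5 h2'
      have h6 : (j - Pool.Agent.L0h75.IS.jc i) * (4 * A ^ 3 + 27 * B ^ 2) = 0 := by
        linear_combination h2' - h5
      rcases mul_eq_zero.1 h6 with h7 | h7
      · linarith
      · exact absurd h7 h0
    rcases hj with hj | hj
    · left
      have h8 := key _ hj
      revert h8
      generalize i = k
      fin_cases k <;> decide
    · right
      have h8 := key _ hj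
      revert h8
      generalize i = k
      fin_cases k <;> decide
  obtain ⟨hn, hA, hB⟩ := hp
  rcases hij with rfl | rfl
  · have h2 : Pool.Agent.L0h74.AP.RootPlus n := h1
    have h3 := Pool.Agent.L0h1.CM.tt49 hS h2
    rw [Pool.Agent.L0h1.CM.tt_gd (Pool.Agent.L0h74.AP.Dn_sq n) (Pool.Agent.L0h74.AP.Dn_seven n)] at h3
    refine Iff.trans (tt_eq ?_) h3
    have e1 : A = -35 * n ^ 2 := hA
    have e2 : B = -98 * n ^ 3 := hB
    rw [e1, e2]
    unfold curve Pool.Agent.L0h1.CM.S7
    push_cast
    rfl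
  · have h2 : Pool.Agent.L0h74.E3.RootPlus n := h1
    have h3 := Pool.Agent.L0h1.CM.tt36 h2
    refine Iff.trans (tt_eq ?_) h3
    have e1 : A = 0 := hA.trans (zero_mul _)
    have e2 : B = n ^ 3 := hB.trans (one_mul _)
    rw [e1, e2]
    unfold curve Pool.Agent.L0h4.T6.J
    push_cast
    rfl

lemma par_twist {i : Fin 4} {n A B e : ℤ} (h : Par i n A B) (he : e ≠ 0) :
    Par i (e * n) (A * e ^ 2) (B * e ^ 3) := by
  obtain ⟨h1, h2, h3⟩ := h
  exact ⟨mul_ne_zero he h1, by rw [h2]; ring, by rw [h3]; ring⟩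

lemma cn_count {T U : ℤ → Prop} (X : ℕ) (h : ∀ e, U e ↔ Squarefree e ∧ T e) :
    Pool.Agent.L0h75.IS.cn T X = count U X := by
  unfold Pool.Agent.L0h75.IS.cn count
  refine congrArg Finset.card (Finset.ext fun e => ?_)
  rw [Finset.mem_filter, Finset.mem_filter]
  refine and_congr_right fun he => ?_
  rw [Finset.mem_Icc] at he
  rw [h]
  exact ⟨fun h1 => ⟨h1.1, h1.2.2⟩, fun h1 => ⟨h1.1, by omega, h1.2⟩⟩

theorem local_law {A B : ℤ} (h : CMTwo A B) {S : Finset ℕ} (hS : ∀ p ∈ S, p.Prime) (inf : Prop)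
    {e₀ : ℤ} (he₀ : Squarefree e₀) (h₀ : RootPlus (A * e₀ ^ 2) (B * e₀ ^ 3)) :
    Filter.Tendsto (fun X : ℕ =>
      (count (fun e => Local A B S inf e₀ e ∧ Good (A * e ^ 2) (B * e ^ 3)) X : ℝ) /
        (count (Local A B S inf e₀) X : ℝ)) Filter.atTop
      (nhds ((∏' i : ℕ, (1 - (1 / 2 : ℝ) ^ (2 * i + 1))) / 2)) := by
  obtain ⟨i, d, hp⟩ := (class_iff A B).1 h
  have key := Pool.Agent.L0h1.CM.law (i := i) hp.1 hS inf he₀
    ((root_iff (par_twist hp he₀.ne_zero)).1 h₀)
  have e1 : ∀ e : ℤ, Squarefree e → (Local A B S inf e₀ e ↔ Pool.Agent.L0h1.CM.Loc i d e₀ S inf e) := by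
    intro e he
    unfold Local Pool.Agent.L0h1.CM.Loc
    rw [root_iff (par_twist hp he.ne_zero)]
    exact ⟨fun h => h.2, fun h => ⟨he, h⟩⟩
  have e2 : ∀ e : ℤ, Squarefree e → (Good (A * e ^ 2) (B * e ^ 3) ↔ Pool.Agent.L0h1.CM.Gd i (e * d)) :=
    fun e he => good_iff (par_twist hp he.ne_zero)
  refine key.congr fun X => congrArg₂ (fun a b : ℕ => (a : ℝ) / (b : ℝ)) ?_ ?_
  · refine cn_count X fun e => ?_
    constructor
    · rintro ⟨h1, h2⟩
      exact ⟨h1.1, (e1 e h1.1).1 h1, (e2 e h1.1).1 h2⟩
    · rintro ⟨h1, h2, h3⟩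
      exact ⟨(e1 e h1).2 h2, (e2 e h1).2 h3⟩
  · refine cn_count X fun e => ?_
    constructor
    · intro h1
      exact ⟨h1.1, (e1 e h1.1).1 h1⟩
    · rintro ⟨h1, h2⟩
      exact (e1 e h1).2 h2

lemma number_eq (P : ℤ → ℤ → Prop) (X : ℕ) : number P X = Pool.Agent.L0h75.IS.num P X := by
  unfold number Pool.Agent.L0h75.IS.num
  congr 1
  ext q
  constructor
  · rintro ⟨⟨⟨h1, h2, h3⟩, h4⟩, h5, h6⟩
    exact ⟨⟨h1, h2, h3, h4⟩, h5, h6⟩
  · rintro ⟨⟨h1, h2, h3, h4⟩, h5, h6⟩
    exact ⟨⟨⟨h1, h2, h3⟩, h4⟩, h5, h6⟩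

theorem height_law :
    Filter.Tendsto (fun X : ℕ =>
      (number (fun A B => RootPlus A B ∧ Good A B) X : ℝ) / (number RootPlus X : ℝ)) Filter.atTop
      (nhds ((∏' i : ℕ, (1 - (1 / 2 : ℝ) ^ (2 * i + 1))) / 2)) := by
  have hpar : ∀ (i : Fin 4) (m : ℤ), Squarefree m → Par i m (a i * m ^ 2) (b i * m ^ 3) :=
    fun i m hm => ⟨hm.ne_zero, rfl, rfl⟩
  have hc : (0 : ℝ) < Pool.Agent.Y703.CQ.c2 / 2 := half_pos Pool.Agent.Y948.CQ.t_C2.2.1
  have key := Pool.Agent.L0h75.IS.height_law (P := RootPlus) (R := Good)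
    (T := Pool.Agent.L0h1.CM.Plus) (V := Pool.Agent.L0h1.CM.Gd)
    (fun i m hm => root_iff (hpar i m hm)) (fun i m hm _ => good_iff (hpar i m hm)) hc
    Pool.Agent.L0h1.CM.law1
  refine key.congr fun X => ?_
  rw [number_eq, number_eq]

/-- **The rank form of the conjecture of Birch and Swinnerton-Dyer for the elliptic curves over `ℚ` with
complex multiplication by a field in which two is unramified and with a rational point of order two.** -/
theorem result :
    (∀ A B : ℤ, (CMTwo A B ↔ ∃ (i : Fin 4) (n : ℤ), Par i n A B) ∧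
      ∀ (i j : Fin 4) (m n : ℤ), Par i m A B → Par j n A B → i = j ∧ m = n) ∧
    (∀ A B : ℤ, RootPlus A B → HasJ A B (-3375) ∨ HasJ A B 0 → (TrivialTwo A B ↔ Good A B)) ∧
    (∀ A B : ℤ, RootPlus A B → Good A B → BSDRankZero A B) ∧
    (∀ A B : ℤ, CMTwo A B → ∀ S : Finset ℕ, (∀ p ∈ S, p.Prime) → ∀ (inf : Prop) (e₀ : ℤ),
      Squarefree e₀ → RootPlus (A * e₀ ^ 2) (B * e₀ ^ 3) →
      Filter.Tendsto (fun X : ℕ =>
        (count (fun e => Local A B S inf e₀ e ∧ Good (A * e ^ 2) (B * e ^ 3)) X : ℝ) /
          (count (Local A B S inf e₀) X : ℝ)) Filter.atTop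
        (nhds ((∏' i : ℕ, (1 - (1 / 2 : ℝ) ^ (2 * i + 1))) / 2))) ∧
    Filter.Tendsto (fun X : ℕ =>
      (number (fun A B => RootPlus A B ∧ Good A B) X : ℝ) / (number RootPlus X : ℝ)) Filter.atTop
      (nhds ((∏' i : ℕ, (1 - (1 / 2 : ℝ) ^ (2 * i + 1))) / 2)) :=
  ⟨fun A B => ⟨class_iff A B, fun _ _ _ _ h h' => par_unique h h'⟩,
    fun _ _ h hj => two (fun n hn h x hx => Pool.Agent.L0h75.IS.sha_seven_two hn h x hx) h hj, fun _ _ h hg => bsd h hg,
    fun _ _ h _ hS inf _ he₀ h₀ => local_law h hS inf he₀ h₀, height_law⟩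

end Pool.Agent.Results.MP_696deb_nt.CMTwoTorsionCurves
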