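import Pool.Agent.L0h86.XF.ASM
import Pool.Agent.Y948.CQ.C2

/-!
# The rank form for any number of twists of `X_0(49)` and of `X_0(36)` at once: the joint law

`A_n : y² = x³ - 35 n² x - 98 n³` is the quadratic twist by `n` of
`X_0(49) : y² + x y = x³ - x² - 2 x - 1`, with complex multiplication by the integers of `ℚ(√-7)`, and
`B_n : y² = x³ + n³` is the twist by `n` of `X_0(36) : y² = x³ + 1`, with complex multiplication by the
integers of `ℚ(√-3)`. By the known formulas `A_n` has root number one if and only if `n` is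
`D t²` or `-7 D t²` with a positive squarefree `D` prime to `7` (`PlusA`), and `B_n` if and only if
`n` is `D t²` or `-3 D t²` with `D` squarefree, prime to `3` and `|D| ≡ 1` modulo `4` or `D` even and
negative (`PlusB`); the root numbers are not used here.

(1) If `PlusA n` holds and `A_n(ℚ)` is finite and `Ш(A_n/ℚ)[2] = 0` (`TrivialTwo`), then the order of the
`L`-series at `s = 1` and the rank are `0` for `A_n`, and for the curve
`y² = x³ - 595 n² x - 5586 n³`, which is `2`-isogenous to `A_n`. The same holds for `B_n` and the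
`2`-isogenous curve `y² = x³ - 15 n² x + 22 n³`.

(2) The joint law. Let `d_1, ..., d_s` be integers no two of which have the quotient `± 1` or `± 7`
times a square, and `d'_1, ..., d'_t` integers no two of which have the quotient `± 1` or `± 3` times a
square. Let `e` run over the squarefree integers, in a residue class modulo any number, with a condition
on the sign of `e` or without it, such that `PlusA (e d_i)` and `PlusB (e d'_j)` hold for all `i` and `j`,
ordered by `|e|`. If there is one such `e`, then each of the `2^(s+t)` patterns of the events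
`TrivialTwo A_{e d_i}` and `TrivialTwo B_{e d'_j}` has an exact proportion among these `e`, the product
`L(b) L(b')`, where `L(b) = (1/2) ∏ (c₂ or 1 - c₂)`, plus `1/2` if `b` is all false, and
`c₂ = ∏_{i ≥ 0} (1 - 2^{-(2i+1)}) = 0.4194...`. So the `e` fall into four quarters, according as the twists
of `X_0(49)` and the twists of `X_0(36)` can be good at all, and everything else is independent: the events
for the two curves, and the events for any number of twists of the same curve.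

(3) In particular the rank form, with order and rank `0`, holds for all the `2 (s + t)` curves at once
for the proportion `c₂^(s+t) / 4` of the `e` at least (`s, t > 0`), and for one of them at least for the
proportion `1 - (1 + (1 - c₂)^s) (1 + (1 - c₂)^t) / 4`, which is as near to `3/4` as one likes.

The proof: `Pool/Agent/L0h86/XF` (helpers 86, 19, 23, 38, 59, 61, 63, 74, 75, 83), after
`Pool/Agent/L0h2/P` (helpers 2, 74, 86, 1), and the files quoted in
`Results/MP_696deb_nt/AllTwistsX49ExactProportion.lean` and `AllTwistsX36ExactProportion.lean` for a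
single twist.
-/

set_option autoImplicit false

open scoped Classical
open Filter Topology

namespace Pool.Agent.Results.MP_696deb_nt.JointLawTwoFields

/-- the conclusion of the frozen statement for `y² = x³ + a x + b`, together with the fact that the
order of vanishing and the rank are both `0` -/
def BSDRankZero (a b : ℤ) : Prop :=
  4 * a ^ 3 + 27 * b ^ 2 ≠ 0 ∧
    ∃ F : ℂ → ℂ, Differentiable ℂ F ∧
      (∀ s : ℂ, (3 : ℝ) / 2 < s.re →
        HasProd
          (fun p : ℕ => open Classical in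
            if p.Prime ∧ ¬ ((p : ℤ) ∣ 2 * (-4 * a ^ 3 - 27 * b ^ 2)) then
              (1 - ((p : ℂ) - (Nat.card {q : ZMod p × ZMod p //
                  q.2 ^ 2 = q.1 ^ 3 + (a : ZMod p) * q.1 + (b : ZMod p)} : ℂ))
                  * (p : ℂ) ^ (-s) + (p : ℂ) ^ (1 - 2 * s))⁻¹
            else 1)
          (F s)) ∧
      analyticOrderAt F 1 =
        ((Module.finrank ℤ
          (WeierstrassCurve.Affine.Point
            (WeierstrassCurve.toAffine
              ({ a₁ := 0, a₂ := 0, a₃ := 0, a₄ := (a : ℚ), a₆ := (b : ℚ) } :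
                WeierstrassCurve ℚ))) : ℕ) : ℕ∞) ∧
      Module.finrank ℤ
        (WeierstrassCurve.Affine.Point
          (WeierstrassCurve.toAffine
            ({ a₁ := 0, a₂ := 0, a₃ := 0, a₄ := (a : ℚ), a₆ := (b : ℚ) } :
              WeierstrassCurve ℚ))) = 0

/-- The curve `y² = x³ - 35 n² x - 98 n³`, the quadratic twist by `n` of `X_0(49)`. -/
def A (n : ℤ) : WeierstrassCurve ℚ :=
  { a₁ := 0, a₂ := 0, a₃ := 0, a₄ := -35 * (n : ℚ) ^ 2, a₆ := -98 * (n : ℚ) ^ 3 }

/-- The curve `y² = x³ + n³`, the quadratic twist by `n` of `X_0(36)`. -/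
def B (n : ℤ) : WeierstrassCurve ℚ := { a₁ := 0, a₂ := 0, a₃ := 0, a₄ := 0, a₆ := (n : ℚ) ^ 3 }

/-- `E(ℚ)` is finite and `Ш(E/ℚ)[2] = 0`. -/
def TrivialTwo (E : WeierstrassCurve ℚ) : Prop :=
  Finite E.toAffine.Point ∧ ∀ x : Pool.Agent.TH841.NF.D.Sha E, x + x = 0 → x = 0

/-- `n = D t²` or `n = -7 D t²`, `D` positive, squarefree, prime to `7`. -/
def PlusA (n : ℤ) : Prop := ∃ D t : ℤ, 0 < D ∧ Squarefree D ∧ ¬ 7 ∣ D ∧ t ≠ 0 ∧
  (n = D * t ^ 2 ∨ n = -7 * D * t ^ 2)

/-- `n = D t²` or `n = -3 D t²`, `D` squarefree, prime to `3`, `|D| ≡ 1` modulo `4` or `D` even and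
negative. -/
def PlusB (n : ℤ) : Prop := ∃ D t : ℤ, Squarefree D ∧ ¬ 3 ∣ D ∧ (|D| % 4 = 1 ∨ D < 0 ∧ 2 ∣ D) ∧
  t ≠ 0 ∧ (n = D * t ^ 2 ∨ n = -3 * D * t ^ 2)

/-- No quotient of two of the `d_i` is `± 1` or `± p` times a square. -/
def Diff (p : ℤ) {k : ℕ} (d : Fin k → ℤ) : Prop := ∀ i j, i ≠ j → ∀ m : ℤ,
  d i * d j ≠ m ^ 2 ∧ d i * d j ≠ -m ^ 2 ∧ d i * d j ≠ p * m ^ 2 ∧ d i * d j ≠ -p * m ^ 2

/-- The squarefree integers `e ≡ r` modulo `m`, with the sign of `e` in `σ`, such that `PlusA (e d_i)` and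
`PlusB (e d'_j)` hold for all `i` and `j`. -/
def Fam {s t : ℕ} (d : Fin s → ℤ) (d' : Fin t → ℤ) (m : ℕ) (r : ℤ) (σ : Set ℤ) (e : ℤ) : Prop :=
  Squarefree e ∧ (∀ i, PlusA (e * d i)) ∧ (∀ j, PlusB (e * d' j)) ∧ e ≡ r [ZMOD (m : ℤ)] ∧
    e.sign ∈ σ

/-- The proportion of the integers `e`, `|e| ≤ X`, with the property `Q` among those with the
property `F`. -/
noncomputable def prop (F Q : ℤ → Prop) (X : ℕ) : ℝ :=
  (((Finset.Icc (-(X : ℤ)) X).filter fun e => F e ∧ Q e).card : ℝ) /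
    (((Finset.Icc (-(X : ℤ)) X).filter fun e => F e).card : ℝ)

/-- the constant `0.4194...` -/
noncomputable def c₂ : ℝ := ∏' i : ℕ, (1 - (1 / 2 : ℝ) ^ (2 * i + 1))

/-- The law of one family. -/
noncomputable def law {k : ℕ} (b : Fin k → Bool) : ℝ :=
  (∏ i, if b i = true then c₂ else 1 - c₂) / 2 + if ∀ i, b i = false then 1 / 2 else 0

section proof

theorem bsd_of {a b : ℤ} (h0 : 4 * a ^ 3 + 27 * b ^ 2 ≠ 0) (h : Pool.Agent.L0h75.IS.RZ2 a b) :
    BSDRankZero a b := by
  obtain ⟨F, h1, h2, h3, h4⟩ := h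
  have h6 := Pool.Agent.L0h1.KD.finrank_zero h4
  refine ⟨h0, F, h1, ?_, ?_, h6⟩
  · intro s hs
    exact h2 s hs
  · rw [h6, (h1.analyticAt 1).analyticOrderAt_eq_zero.2 h3]
    rfl

theorem law_eq {k : ℕ} (b : Fin k → Bool) : law b = Pool.Agent.L0h86.XF.L1 b := rfl

theorem law_true {k : ℕ} (hk : 0 < k) : law (fun _ : Fin k => true) = c₂ ^ k / 2 := by
  unfold law
  have : ¬ ∀ i : Fin k, (fun _ : Fin k => true) i = false := by
    intro h
    simpa using h ⟨0, hk⟩
  rw [if_neg this]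
  simp

theorem law_false {k : ℕ} : law (fun _ : Fin k => false) = (1 + (1 - c₂) ^ k) / 2 := by
  unfold law
  simp
  ring

theorem tt_A (n : ℤ) : TrivialTwo (A n) ↔ Pool.Agent.L0h1.CM.TT2 (Pool.Agent.L0h1.CM.S7 (n : ℚ)) :=
  Iff.rfl

theorem tt_B (n : ℤ) : TrivialTwo (B n) ↔
    Pool.Agent.L0h1.CM.TT2 (Pool.Agent.L0h4.T6.J ((n : ℚ) ^ 3)) := Iff.rfl

theorem prop_iff {F Q Q' : ℤ → Prop} (h : ∀ e, F e → (Q e ↔ Q' e)) (X : ℕ) :
    prop F Q X = prop F Q' X := by
  unfold prop
  rw [Finset.filter_congr fun e _ => and_congr_right fun he => h e he]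

/-- the complement of an event -/
theorem compl_of {F Q Q' : ℤ → Prop} (hne : ∃ e, F e) (hQ : ∀ e, Q e ↔ ¬ Q' e) {c : ℝ}
    (h : Tendsto (prop F Q') atTop (𝓝 c)) : Tendsto (prop F Q) atTop (𝓝 (1 - c)) := by
  obtain ⟨e, he⟩ := hne
  refine (h.const_sub 1).congr' ?_
  filter_upwards [eventually_ge_atTop e.natAbs] with X hX
  have hpos : (0 : ℝ) < (((Finset.Icc (-(X : ℤ)) X).filter fun e => F e).card : ℝ) := by
    have : 0 < ((Finset.Icc (-(X : ℤ)) X).filter fun e => F e).card := by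
      refine Finset.card_pos.2 ⟨e, ?_⟩
      rw [Finset.mem_filter, Finset.mem_Icc]
      exact ⟨⟨by omega, by omega⟩, he⟩
    exact_mod_cast this
  have hsum : (((Finset.Icc (-(X : ℤ)) X).filter fun e => F e ∧ Q e).card : ℝ) +
      (((Finset.Icc (-(X : ℤ)) X).filter fun e => F e ∧ Q' e).card : ℝ) =
      (((Finset.Icc (-(X : ℤ)) X).filter fun e => F e).card : ℝ) := by
    have h1 : ((Finset.Icc (-(X : ℤ)) X).filter fun e => F e ∧ Q e).card +
        ((Finset.Icc (-(X : ℤ)) X).filter fun e => F e ∧ Q' e).card =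
        ((Finset.Icc (-(X : ℤ)) X).filter fun e => F e).card := by
      rw [← Finset.card_union_of_disjoint]
      · congr 1
        ext x
        have := hQ x
        simp only [Finset.mem_union, Finset.mem_filter]
        tauto
      · rw [Finset.disjoint_left]
        intro x h1 h2
        rw [Finset.mem_filter] at h1 h2
        exact (hQ x).1 h1.2.2 h2.2.2
    exact_mod_cast h1
  unfold prop
  rw [eq_div_iff hpos.ne', sub_mul, div_mul_cancel₀ _ hpos.ne', one_mul]
  linarith

end proof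

/-- **The joint law of any number of quadratic twists of `X_0(49)` and of `X_0(36)`.** -/
theorem result :
    (∀ n : ℤ, PlusA n → TrivialTwo (A n) →
      BSDRankZero (-35 * n ^ 2) (-98 * n ^ 3) ∧ BSDRankZero (-595 * n ^ 2) (-5586 * n ^ 3)) ∧
    (∀ n : ℤ, PlusB n → TrivialTwo (B n) →
      BSDRankZero 0 (n ^ 3) ∧ BSDRankZero (-15 * n ^ 2) (22 * n ^ 3)) ∧
    (∀ (s t : ℕ) (d : Fin s → ℤ) (d' : Fin t → ℤ), Diff 7 d → Diff 3 d' →
      ∀ (m : ℕ) (r : ℤ) (σ : Set ℤ), 0 < m → (∃ e, Fam d d' m r σ e) →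
      (∀ (b : Fin s → Bool) (b' : Fin t → Bool), Tendsto (prop (Fam d d' m r σ) fun e =>
        (∀ i, (TrivialTwo (A (e * d i)) ↔ b i = true)) ∧
          ∀ j, (TrivialTwo (B (e * d' j)) ↔ b' j = true)) atTop (𝓝 (law b * law b'))) ∧
      (0 < s → 0 < t → Tendsto (prop (Fam d d' m r σ) fun e =>
        (∀ i, TrivialTwo (A (e * d i))) ∧ ∀ j, TrivialTwo (B (e * d' j)))
          atTop (𝓝 (c₂ ^ (s + t) / 4))) ∧
      Tendsto (prop (Fam d d' m r σ) fun e =>
        (∃ i, TrivialTwo (A (e * d i))) ∨ ∃ j, TrivialTwo (B (e * d' j)))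
          atTop (𝓝 (1 - (1 + (1 - c₂) ^ s) * (1 + (1 - c₂) ^ t) / 4))) ∧
    (0.4194 < c₂ ∧ c₂ < 0.4195) := by
  have hc2 := Pool.Agent.Y948.CQ.t_C2
  refine ⟨?_, ?_, ?_, hc2.2.2.2.1, hc2.2.2.2.2⟩
  · intro n hn h
    have hR : Pool.Agent.L0h74.AP.RootPlus n := Pool.Agent.L0h86.XF.plusA_iff.1 hn
    have hn0 : n ≠ 0 := by
      rcases hR with h | h
      · exact h.1.ne'
      · exact h.1.ne
    have hc := (Pool.Agent.L0h86.XF.tt_cv (f := false) hR).1 h
    refine ⟨bsd_of ?_ (Pool.Agent.L0h74.E3.good49 hR hc), bsd_of ?_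
      (Pool.Agent.L0h74.E3.good49s hR hc)⟩
    · have e : (4 * (-35 * n ^ 2) ^ 3 + 27 * (-98 * n ^ 3) ^ 2 : ℤ) = 87808 * n ^ 6 := by ring
      rw [e]
      exact mul_ne_zero (by norm_num) (pow_ne_zero _ hn0)
    · have e : (4 * (-595 * n ^ 2) ^ 3 + 27 * (-5586 * n ^ 3) ^ 2 : ℤ) =
          (-4 * 595 ^ 3 + 27 * 5586 ^ 2) * n ^ 6 := by ring
      rw [e]
      exact mul_ne_zero (by norm_num) (pow_ne_zero _ hn0)
  · intro n hn h
    have hR : Pool.Agent.L0h74.E3.RootPlus n := Pool.Agent.L0h86.XF.plusB_iff.1 hn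
    have hn0 : n ≠ 0 := hR.1
    have hc := (Pool.Agent.L0h86.XF.tt_cv (f := true) hR).1 h
    refine ⟨bsd_of ?_ (Pool.Agent.L0h74.E3.good36 hR hc), bsd_of ?_
      (Pool.Agent.L0h74.E3.good36' hR hc)⟩
    · have e : (4 * 0 ^ 3 + 27 * (n ^ 3) ^ 2 : ℤ) = 27 * n ^ 6 := by ring
      rw [e]
      exact mul_ne_zero (by norm_num) (pow_ne_zero _ hn0)
    · have e : (4 * (-15 * n ^ 2) ^ 3 + 27 * (22 * n ^ 3) ^ 2 : ℤ) = -432 * n ^ 6 := by ring
      rw [e]
      exact mul_ne_zero (by norm_num) (pow_ne_zero _ hn0)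
  · intro s t d d' hd hd' m r σ hm hne
    have key : ∀ (b : Fin s → Bool) (b' : Fin t → Bool), Tendsto (prop (Fam d d' m r σ) fun e =>
        (∀ i, (TrivialTwo (A (e * d i)) ↔ b i = true)) ∧
          ∀ j, (TrivialTwo (B (e * d' j)) ↔ b' j = true)) atTop (𝓝 (law b * law b')) :=
      fun b b' => Pool.Agent.L0h86.XF.law_fin hd hd' hm hne b b'
    refine ⟨key, fun hs ht => ?_, ?_⟩
    · have h1 := key (fun _ => true) (fun _ => true)
      rw [law_true hs, law_true ht] at h1
      have e : c₂ ^ (s + t) / 4 = c₂ ^ s / 2 * (c₂ ^ t / 2) := by ring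
      rw [e]
      refine h1.congr fun X => prop_iff (fun e _ => ?_) X
      simp
    · have h1 := key (fun _ => false) (fun _ => false)
      rw [law_false, law_false] at h1
      have e : (1 + (1 - c₂) ^ s) * (1 + (1 - c₂) ^ t) / 4 =
        (1 + (1 - c₂) ^ s) / 2 * ((1 + (1 - c₂) ^ t) / 2) := by ring
      rw [e]
      refine compl_of hne (fun e => ?_) h1
      simp only [Bool.false_eq_true, iff_false]
      push Not
      constructor
      · rintro (⟨i, hi⟩ | ⟨j, hj⟩)
        · exact fun h => absurd hi (h i)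
        · exact fun _ => ⟨j, hj⟩
      · intro h
        by_cases h2 : ∀ i, ¬ TrivialTwo (A (e * d i))
        · exact Or.inr (h h2)
        · push Not at h2
          exact Or.inl h2

end Pool.Agent.Results.MP_696deb_nt.JointLawTwoFields
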