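import Mathlib
import Pool.Agent.L0h50.BG.Laws
import Pool.Agent.L0h50.BG.Fin3
import Pool.Agent.L0h50.BG.Alm

/-!
# The products of Birch and Swinnerton-Dyer of the members of families of elliptic curves, and the ranks of the families

Let `K = ℚ(t)(w)`, `t = (t_i)`. A family is an elliptic curve

  `E : y² = x³ + (c₂ + w b₂) x² + (c₄ + w b₄) x + (c₆ + w b₆)`

over `K`, where `c₂, c₄, c₆, b₂, b₄, b₆` are arbitrary polynomials in the `t_i` with integer coefficients, and `b₂, b₄, b₆`
are not all zero. For an integral point `m` let `E_m` be the member at `m`, and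

  `P_{E,m}(x) = ∏_{p ≤ x, p ∤ 2 Δ_m} (N_p + 1) / p`,

the product over the primes of which Birch and Swinnerton-Dyer conjectured in the original form of their conjecture that it
is asymptotic to a constant times `(log x)^r`, `r` the rank of `E_m(ℚ)`. Let `r(E)` be the rank of `E(K)`, and let `s(E, E')`
be the rank of `E'(K₁)`, `K₁` the function field of `E` over `K`; classically `s(E, E') - r(E')` is the rank of
`Hom_K(E, E')`. It is proved that

- `r(E)` is the number of the monic irreducible factors `δ` of `b₂ X² + b₄ X + b₆` over `ℚ(t)` such that
  `X³ + c₂ X² + c₄ X + c₆` is a nonzero square modulo `δ`;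
- `s(E, E) = r(E) + 1`, and `s(E, E') - r(E')` is `0` or `1`, and symmetric;
- for `x` up to a power of the sides of the boxes, `P_{E,m}(x) = (log x)^{r(E) + 1/2 + o(1)}` for almost all members of `E`;
- for finitely many families `E_j`, the `log P_{E_j,m}(x)` have asymptotically a joint normal distribution with the means
  `(r(E_j) + 1/2) log log x` and the covariances `(s(E_j, E_j') - r(E_j')) log log x`. In the variable
  `τ = log log y / log log x` the processes `log P_{E_j,m}(y)` converge (in the finite-dimensional distributions) to Brownian
  motions with drift; two of them are independent if `s(E, E') = r(E')`, and are the same if `s(E, E') = r(E') + 1`.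

So the products know the ranks of the families and the isogenies between them. `r(E) + 1/2` is the number which one expects
for the average of the ranks of the members of `E`: they are `r` or `r + 1`, outside of a set of density zero, and both are
equally frequent, if the root numbers are equidistributed.
-/

set_option autoImplicit false

open Pool.Agent.L0h50.BG Filter Topology

namespace Pool.Agent.Results.MP_696deb_nt.RanksAndProducts

/-- **The ranks and the products of Birch and Swinnerton-Dyer.** -/
theorem result (σ : Type) [Fintype σ] [DecidableEq σ] [DecidableEq (KK σ)] :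
    ∃ (r : Family σ → ℕ) (s : Family σ → Family σ → ℕ), AreRanks r s ∧
      (∀ E : Family σ, E.IsGood → r E = E.factors.ncard ∧ s E E = r E + 1) ∧
      (∀ E E' : Family σ, E.IsGood → E'.IsGood →
        (s E E' = r E' ∨ s E E' = r E' + 1) ∧ s E E' + r E = s E' E + r E') ∧
      JointLaw r s ∧ Independence r s ∧ AlmostAllMembers r ∧ PowerLaw r := by
  classical
  refine ⟨r1, r2, ⟨fun E hE => rank_one hE, fun E E' hE hE' K₁ _ _ _ x y hxy => ?_, exists_ff⟩,
    fun E hE => ⟨r1_eq E, r2_self hE⟩, fun E E' hE hE' => ⟨r2_cases hE hE', r2_symm hE hE'⟩, ?_, ?_, ?_, ?_⟩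
  · exact rank_two hE hE' hxy
  · intro J _ E τ x y h hE hτ0 hx hy3 hyx hτ hh z
    exact joint_dist E hE τ hτ0 x y h hx hy3 hyx hτ hh z
  · intro J _ E x h hE hne hx hh z
    have hx16 : ∀ᶠ n in atTop, 3 ≤ x n := hx.eventually_ge_atTop 3
    have h1 := joint_dist E hE (fun _ => 1) (fun _ => one_pos) (fun n => max 3 (x n)) (fun n _ => max 3 (x n))
      (fun n i => max 27 (h n i)) (tendsto_atTop_mono (fun n => le_max_right _ _) hx) (fun n _ => le_max_left _ _)
      (fun n _ => le_rfl) (fun _ => by
        have hLL := Pool.Agent.L0h50.BF.loglog_tendsto (x := fun n => max 3 (x n))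
          (tendsto_atTop_mono (fun n => le_max_right _ _) hx)
        refine Tendsto.congr' (f₁ := fun _ => (1 : ℝ)) ?_ tendsto_const_nhds
        filter_upwards [hLL.eventually_gt_atTop 0] with n hn
        exact (div_self hn.ne').symm) (fun n i => by
        rcases le_total (x n) 3 with h3 | h3
        · rw [max_eq_left h3]
          exact le_max_left _ _
        · rw [max_eq_right h3]
          exact (hh n i).trans (le_max_right _ _)) z
    have hcov : covM E (fun _ => 1) = 1 := by
      ext i j
      unfold covM
      rw [Matrix.of_apply, min_self, mul_one, Matrix.one_apply]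
      by_cases hij : i = j
      · rw [if_pos hij, hij, vv_self (hE j)]
      · rw [if_neg hij]
        unfold vv
        have := hne i j hij
        rw [this, sub_self]
    rw [hcov, orth_one] at h1
    refine h1.congr' ?_
    filter_upwards [hx16] with n hn
    have e1 : max 3 (x n) = x n := max_eq_right hn
    have e2 : (fun i => max 27 (h n i)) = h n := by
      funext i
      apply max_eq_right
      have := hh n i
      have h27 : 3 ^ 3 ≤ x n ^ 3 := Nat.pow_le_pow_left hn 3
      omega
    rw [e1, e2]
    rfl
  · intro E hE
    have h1 := almost_all hE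
    rw [rho_eq hE] at h1
    exact h1
  · intro E hE δ η hδ hη
    have h1 := power_law hE δ η hδ hη
    rw [rho_eq hE] at h1
    exact h1

end Pool.Agent.Results.MP_696deb_nt.RanksAndProducts
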