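import Pool.Agent.L0h3.WB.Conv4
import Pool.Agent.L0h3.WB.Curve2

/-!
# Every truncated numerical form of the conjecture of Birch and Swinnerton-Dyer implies the Riemann
hypothesis and the rank form; the smooth ones are equivalent to them

Let `C : y² = x³ + a x + b` be an elliptic curve over `ℚ`, `a, b ∈ ℤ`, let `N_p` be the number of
affine points modulo the good primes `p ∤ 2Δ`, and let `F` be the entire continuation of the incomplete
`L`-series. For a function `w` on `[0, 1]` put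

`S_w(X) = ∑_{p ≤ X, p ∤ 2Δ} w(log p / log X) log ((N_p + 1)/p)`,

the logarithm of the product of the `((N_p + 1)/p)^w` over `p ≤ X`. For `w = 1` this is the product of Birch and
Swinnerton-Dyer, and Goldfeld (1982) proved that `S_1(X) = ρ log log X + c + o(1)` implies the Riemann
hypothesis and `ρ = ord_{s=1} F` (by partial summation). Here `w` is ANY bounded measurable
function; no regularity is assumed, `w` may oscillate, change sign or be complex-valued, and its
Mellin transform may have zeros anywhere: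

* if `w` is not almost everywhere `0` and `S_w(X) = O(X^ε)` for every `ε > 0`, then `F` has no zeros with
  `Re s > 1`;
* if `w → w₀ ≠ 0` at `0` and `S_w(X) / log log X → w₀ ρ`, then moreover `ρ = ord_{s=1} F`. So the
  numerical form `S_w(X) ~ w₀ · rank · log log X` with any weight implies the rank form and the Riemann
  hypothesis;
* if `w ≥ 0`, the upper bound `S_w(X) ≤ (w₀ ρ + o(1)) log log X` suffices for the Riemann hypothesis
  and `ord_{s=1} F ≤ ρ`;
* conversely (if `F` has at most exponential growth in `Re s > 1`, which is known) the Riemann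
  hypothesis and the rank form imply `S_w(X) = w(0) · rank · log log X + O(1)` for all `w` of class `C³` on
  `ℝ` vanishing on `[1, ∞)`.

So every truncated form contains the Riemann hypothesis (the numerical forms equivalent to the rank form
alone, see `ExactCriterion`, use primes beyond `X`), and all the smooth ones are equivalent to each other.

Proof. The Laplace transform of `S_w(e^T)` is, up to a trivial term, the multiplicative convolution
`H(z) = -∫_0^1 w(y) y⁻² Q(z/y) dy`, where `Q` is the meromorphic function `-(log F)'(1 + z)` + (holomorphic). Let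
`z₀`, `Re z₀ > 0`, be the last zero of `F(1 + z)` on its ray and `b` the end of the support of `w`. Then `H` has
continuations to both sides of the segment of the ray before `b z₀`, whose difference is `2πi m w(x)/x` at `x z₀`
(Poisson integrals), while a bound for `S_w` makes `H` holomorphic there. So `w = 0` near `b`, a contradiction. For
measurable `w` one first averages over the scale of `X`. In the one-sided case a theorem of Landau is used; a real zero
contributes a superposition of growing exponentials with nonnegative coefficients. The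
order is found from an Abelian theorem at `z → 0`. For the converse the Riesz mean of order two is computed by
Perron's formula on the line `Re z = 1/log X`, with the bound of Borel and Carathéodory.
-/

set_option autoImplicit false

namespace Pool.Agent.Results.MP_696deb_nt.TruncatedForms

open Pool.Agent.W263.BSD Filter Topology Classical MeasureTheory

/-- `S_w(X) = ∑_{p ≤ X, p ∤ 2Δ} w(log p / log X) log ((N_p + 1)/p)`. -/
noncomputable def wSum (a b : ℤ) (w : ℝ → ℂ) (X : ℝ) : ℂ :=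
  ∑ p ∈ (Finset.range (⌊X⌋₊ + 1)).filter (GoodPrime a b),
    w (Real.log p / Real.log X) * (Real.log (((pointCount a b p : ℝ) + 1) / p) : ℂ)

/-- A weight: a measurable function which is bounded on `[0, 1]`. -/
def Weight (w : ℝ → ℂ) : Prop :=
  Measurable w ∧ ∃ B : ℝ, ∀ y ∈ Set.Icc (0 : ℝ) 1, ‖w y‖ ≤ B

/-- `S_w(X) / log log X → w₀ ρ`. -/
def Law (a b : ℤ) (w : ℝ → ℂ) (w₀ ρ : ℂ) : Prop :=
  Tendsto (fun X : ℝ => wSum a b w X / (Real.log (Real.log X) : ℂ)) atTop (𝓝 (w₀ * ρ))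

/-- `limsup S_w(X) / log log X ≤ w₀ ρ` for a real weight `w`. -/
def UpperLaw (a b : ℤ) (w : ℝ → ℝ) (w₀ ρ : ℝ) : Prop :=
  ∀ ε : ℝ, 0 < ε → ∀ᶠ X : ℝ in atTop,
    (wSum a b (fun y => (w y : ℂ)) X).re ≤ (w₀ * ρ + ε) * Real.log (Real.log X)

/-- The Riemann hypothesis for `F`. -/
def RH (F : ℂ → ℂ) : Prop := ∀ s : ℂ, 1 < s.re → F s ≠ 0

/-- The rank of the group of rational points of `y² = x³ + a x + b`. -/
noncomputable def rank (a b : ℤ) : ℕ :=
  Module.finrank ℤ
    (WeierstrassCurve.Affine.Point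
      (WeierstrassCurve.toAffine
        ({ a₁ := 0, a₂ := 0, a₃ := 0, a₄ := (a : ℚ), a₆ := (b : ℚ) } : WeierstrassCurve ℚ)))

variable {a b : ℤ} {F : ℂ → ℂ}

theorem not_ae_zero_near {w : ℝ → ℂ}
    (h : ¬ ∀ᵐ y ∂(volume.restrict (Set.Ioo (0 : ℝ) 1)), w y = 0) :
    ∃ y ∈ Set.Ioo (0 : ℝ) 1, ¬ ∀ᵐ t ∂(volume.restrict (Set.Ioo y 1)), w t = 0 := by
  by_contra hcon
  push Not at hcon
  apply h
  have h1 : ∀ n : ℕ, ∀ᵐ t ∂(volume.restrict (Set.Ioo (1 / ((n : ℝ) + 2)) 1)), w t = 0 := by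
    intro n
    refine hcon _ ⟨by positivity, ?_⟩
    rw [div_lt_one (by positivity)]
    have : (0 : ℝ) ≤ n := by positivity
    linarith
  have h2 : Set.Ioo (0 : ℝ) 1 ⊆ ⋃ n : ℕ, Set.Ioo (1 / ((n : ℝ) + 2)) 1 := by
    intro t ht
    obtain ⟨n, hn⟩ := exists_nat_gt (1 / t)
    rw [Set.mem_iUnion]
    refine ⟨n, ?_, ht.2⟩
    rw [div_lt_iff₀ ht.1] at hn
    rw [div_lt_iff₀ (by positivity)]
    nlinarith [ht.1]
  refine ae_restrict_of_ae_restrict_of_subset h2 ?_
  rw [ae_restrict_iUnion_iff]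
  exact h1

theorem rh_of_pow (hF : IsLSeries a b F) {w : ℝ → ℂ} (hw : Weight w)
    (hne : ¬ ∀ᵐ y ∂(volume.restrict (Set.Ioo (0 : ℝ) 1)), w y = 0)
    (h : ∀ ε : ℝ, 0 < ε → ∃ C : ℝ, ∀ᶠ X : ℝ in atTop, ‖wSum a b w X‖ ≤ C * X ^ ε) : RH F := by
  intro s hs
  obtain ⟨hwm, B, hB⟩ := hw
  obtain ⟨y, hy, hny⟩ := not_ae_zero_near hne
  have hy0 := hy.1
  obtain ⟨C, hC⟩ := h (y * (s.re - 1) / 2) (by
    have : 0 < s.re - 1 := by linarith
    positivity)
  refine L0h3.WB.zero_free hF hwm hB (by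
    have : 0 < s.re - 1 := by linarith
    positivity) hC hy hny ?_
  have : y * (s.re - 1) / 2 / y = (s.re - 1) / 2 := by field_simp
  rw [this]
  linarith

theorem law (hF : IsLSeries a b F) {w : ℝ → ℂ} (hw : Weight w) {w₀ ρ : ℂ} (hw0 : w₀ ≠ 0)
    (ht : Tendsto w (𝓝[>] 0) (𝓝 w₀)) (h : Law a b w w₀ ρ) :
    RH F ∧ ∃ r : ℕ, analyticOrderAt F 1 = r ∧ ρ = r := by
  obtain ⟨hwm, B, hB⟩ := hw
  exact L0h3.WB.law hF hwm hB hw0 ht h

theorem upper (hF : IsLSeries a b F) {w : ℝ → ℝ} (hw : Weight fun y => (w y : ℂ))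
    (hpos : ∀ y ∈ Set.Icc (0 : ℝ) 1, 0 ≤ w y) {w₀ ρ : ℝ} (hw0 : 0 < w₀)
    (ht : Tendsto w (𝓝[>] 0) (𝓝 w₀)) (h : UpperLaw a b w w₀ ρ) :
    RH F ∧ ∃ r : ℕ, analyticOrderAt F 1 = r ∧ (r : ℝ) ≤ ρ := by
  obtain ⟨hwm, B, hB⟩ := hw
  have hωm : Measurable w := by
    have := Complex.measurable_re.comp hwm
    exact this
  exact L0h3.WB.law_upper hF hωm hpos hB hw0 ht h

theorem smooth (hF : IsLSeries a b F)
    (hgrow : ∃ K : ℝ, ∀ s : ℂ, 1 < s.re → ‖F s‖ ≤ Real.exp (K * (1 + ‖s‖)))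
    (hRH : RH F) {r : ℕ} (hr : analyticOrderAt F 1 = r) {w : ℝ → ℂ} (hw : ContDiff ℝ 3 w)
    (h1 : ∀ y : ℝ, 1 ≤ y → w y = 0) :
    ∃ M : ℝ, ∀ᶠ X : ℝ in atTop, ‖wSum a b w X - w 0 * r * Real.log (Real.log X)‖ ≤ M :=
  L0h3.WB.converse hF hgrow hRH hr hw h1

/-- a smooth cut-off -/
noncomputable def cut (y : ℝ) : ℝ := Real.smoothTransition (1 - y)

theorem cut_smooth : ContDiff ℝ 3 fun y => (cut y : ℂ) := by
  have h1 : ContDiff ℝ 3 cut := by
    unfold cut
    exact Real.smoothTransition.contDiff.comp (contDiff_const.sub contDiff_id)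
  exact Complex.ofRealCLM.contDiff.comp h1

theorem cut_one {y : ℝ} (hy : 1 ≤ y) : (cut y : ℂ) = 0 := by
  unfold cut
  rw [Real.smoothTransition.zero_of_nonpos (by linarith), Complex.ofReal_zero]

theorem cut_zero : cut 0 = 1 := by
  unfold cut
  rw [sub_zero, Real.smoothTransition.one]

theorem cut_weight : Weight fun y => (cut y : ℂ) := by
  refine ⟨cut_smooth.continuous.measurable, 1, fun y _ => ?_⟩
  unfold cut
  rw [Complex.norm_real, Real.norm_eq_abs, abs_of_nonneg (Real.smoothTransition.nonneg _)]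
  exact Real.smoothTransition.le_one _

theorem loglog_tendsto : Tendsto (fun X : ℝ => Real.log (Real.log X)) atTop atTop :=
  Real.tendsto_log_atTop.comp Real.tendsto_log_atTop

/-- **Truncated numerical forms of the conjecture of Birch and Swinnerton-Dyer.** -/
theorem result (a b : ℤ) (_hΔ : 4 * a ^ 3 + 27 * b ^ 2 ≠ 0) (F : ℂ → ℂ) (hF : IsLSeries a b F) :
    (∀ w : ℝ → ℂ, Weight w → (¬ ∀ᵐ y ∂(volume.restrict (Set.Ioo (0 : ℝ) 1)), w y = 0) →
      (∀ ε : ℝ, 0 < ε → ∃ C : ℝ, ∀ᶠ X : ℝ in atTop, ‖wSum a b w X‖ ≤ C * X ^ ε) → RH F) ∧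
    (∀ (w : ℝ → ℂ) (w₀ ρ : ℂ), Weight w → w₀ ≠ 0 → Tendsto w (𝓝[>] 0) (𝓝 w₀) →
      Law a b w w₀ ρ → RH F ∧ ∃ r : ℕ, analyticOrderAt F 1 = r ∧ ρ = r) ∧
    (∀ (w : ℝ → ℝ) (w₀ ρ : ℝ), Weight (fun y => (w y : ℂ)) →
      (∀ y ∈ Set.Icc (0 : ℝ) 1, 0 ≤ w y) → 0 < w₀ → Tendsto w (𝓝[>] 0) (𝓝 w₀) →
      UpperLaw a b w w₀ ρ → RH F ∧ ∃ r : ℕ, analyticOrderAt F 1 = r ∧ (r : ℝ) ≤ ρ) ∧
    ((∃ K : ℝ, ∀ s : ℂ, 1 < s.re → ‖F s‖ ≤ Real.exp (K * (1 + ‖s‖))) → List.TFAE [
      RH F ∧ analyticOrderAt F 1 = rank a b,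
      ∃ (w : ℝ → ℂ) (w₀ : ℂ), Weight w ∧ w₀ ≠ 0 ∧ Tendsto w (𝓝[>] 0) (𝓝 w₀) ∧
        Law a b w w₀ (rank a b),
      (rank a b : ℕ∞) ≤ analyticOrderAt F 1 ∧ ∃ (w : ℝ → ℝ) (w₀ : ℝ), Weight (fun y => (w y : ℂ)) ∧
        (∀ y ∈ Set.Icc (0 : ℝ) 1, 0 ≤ w y) ∧ 0 < w₀ ∧ Tendsto w (𝓝[>] 0) (𝓝 w₀) ∧
        UpperLaw a b w w₀ (rank a b),
      ∀ w : ℝ → ℂ, ContDiff ℝ 3 w → (∀ y : ℝ, 1 ≤ y → w y = 0) →
        ∃ M : ℝ, ∀ᶠ X : ℝ in atTop,
          ‖wSum a b w X - w 0 * rank a b * Real.log (Real.log X)‖ ≤ M]) := by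
  refine ⟨fun w hw hne h => rh_of_pow hF hw hne h, fun w w₀ ρ hw hw0 ht h => law hF hw hw0 ht h,
    fun w w₀ ρ hw hpos hw0 ht h => upper hF hw hpos hw0 ht h, fun hgrow => ?_⟩
  have hcut : Tendsto cut (𝓝[>] 0) (𝓝 1) := by
    have h1 : Continuous cut := by
      have := (Complex.continuous_re.comp cut_smooth.continuous)
      exact this
    have h2 := h1.tendsto 0
    rw [cut_zero] at h2
    exact tendsto_nhdsWithin_of_tendsto_nhds h2
  have h14 : RH F ∧ analyticOrderAt F 1 = rank a b → ∀ w : ℝ → ℂ, ContDiff ℝ 3 w →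
      (∀ y : ℝ, 1 ≤ y → w y = 0) → ∃ M : ℝ, ∀ᶠ X : ℝ in atTop,
        ‖wSum a b w X - w 0 * rank a b * Real.log (Real.log X)‖ ≤ M :=
    fun h w hw h1 => smooth hF hgrow h.1 h.2 hw h1
  tfae_have 1 → 4 := h14
  tfae_have 4 → 2 := by
    intro h
    refine ⟨fun y => (cut y : ℂ), 1, cut_weight, one_ne_zero, ?_, ?_⟩
    · exact (Complex.continuous_ofReal.tendsto 1).comp hcut
    · obtain ⟨M, hM⟩ := h _ cut_smooth fun y hy => cut_one hy
      unfold Law
      rw [one_mul, tendsto_iff_norm_sub_tendsto_zero]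
      refine squeeze_zero' (g := fun X => M * (Real.log (Real.log X))⁻¹)
        (Eventually.of_forall fun X => norm_nonneg _) ?_ ?_
      · filter_upwards [hM, loglog_tendsto.eventually (eventually_gt_atTop 0)] with X h5 h6
        have hc : (Real.log (Real.log X) : ℂ) ≠ 0 := by exact_mod_cast h6.ne'
        rw [cut_zero, Complex.ofReal_one, one_mul] at h5
        have h7 : wSum a b (fun y => (cut y : ℂ)) X / (Real.log (Real.log X) : ℂ) - rank a b =
            (wSum a b (fun y => (cut y : ℂ)) X - rank a b * Real.log (Real.log X)) *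
              (Real.log (Real.log X) : ℂ)⁻¹ := by
          field_simp
        rw [h7, norm_mul, norm_inv, Complex.norm_real, Real.norm_of_nonneg h6.le]
        exact mul_le_mul_of_nonneg_right h5 (inv_nonneg.2 h6.le)
      · have := loglog_tendsto.inv_tendsto_atTop.const_mul M
        simpa using this
  tfae_have 2 → 1 := by
    rintro ⟨w, w₀, hw, hw0, ht, h⟩
    obtain ⟨h1, r, hr, h2⟩ := law hF hw hw0 ht h
    have h3 : rank a b = r := by exact_mod_cast h2
    exact ⟨h1, by rw [h3]; exact hr⟩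
  tfae_have 1 → 3 := by
    intro h
    refine ⟨h.2.ge, cut, 1, cut_weight, fun y _ => Real.smoothTransition.nonneg _, one_pos,
      hcut, fun ε hε => ?_⟩
    obtain ⟨M, hM⟩ := h14 h _ cut_smooth fun y hy => cut_one hy
    filter_upwards [hM, loglog_tendsto.eventually (eventually_ge_atTop (M / ε))] with X h5 h6
    rw [cut_zero, Complex.ofReal_one, one_mul] at h5
    have h7 := (Complex.abs_re_le_norm _).trans h5
    have h8 : ((rank a b : ℂ) * (Real.log (Real.log X) : ℂ)).re =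
        rank a b * Real.log (Real.log X) := by
      rw [← Complex.ofReal_natCast, ← Complex.ofReal_mul, Complex.ofReal_re]
    rw [Complex.sub_re, h8, abs_le] at h7
    rw [div_le_iff₀ hε] at h6
    linarith [h7.2]
  tfae_have 3 → 1 := by
    rintro ⟨h0, w, w₀, hw, hpos, hw0, ht, h⟩
    obtain ⟨h1, r, hr, h2⟩ := upper hF hw hpos hw0 ht h
    refine ⟨h1, le_antisymm ?_ h0⟩
    rw [hr]
    exact_mod_cast h2
  tfae_finish

end Pool.Agent.Results.MP_696deb_nt.TruncatedForms
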